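import Pool.Agent.W2helper57.LD.Stm

/-!
# Project LD, piece INDJ

The statistics of disjoint blocks are independent, conditioned on the bit of the common root.
-/

set_option autoImplicit false

open Filter Asymptotics Pool.Agent.N602.PC Pool.Agent.W2helper57.LD

namespace Pool.Agent.W2helper59.LD

/-- the sign of a pair inside `W` depends only on the edges inside `W` -/
theorem sg_congr {n : ℕ} {Y Y' : Input n} {W : Finset (Fin n)}
    (h : ∀ e ∈ inside W, Y e = Y' e) {a b : Fin n} (ha : a ∈ W) (hb : b ∈ W) :
    sg Y a b = sg Y' a b := by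
  unfold sg
  by_cases h1 : a < b
  · rw [dif_pos h1, dif_pos h1, h ⟨(a, b), h1⟩ (mem_inside.mpr ⟨ha, hb⟩)]
  · rw [dif_neg h1, dif_neg h1]
    by_cases h2 : b < a
    · rw [dif_pos h2, dif_pos h2, h ⟨(b, a), h2⟩ (mem_inside.mpr ⟨hb, ha⟩)]
    · rw [dif_neg h2, dif_neg h2]

theorem H_congr {n v N : ℕ} {Y Y' : Input n} {W : Finset (Fin n)}
    (h : ∀ e ∈ inside W, Y e = Y' e) {r : Fin n} {u : Fin (v + 1) → Fin N → Fin n}
    (hr : r ∈ W) (hu : ∀ i m, u i m ∈ W) : H r u Y = H r u Y' := by
  unfold H
  refine Finset.sum_congr rfl fun g _ => ?_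
  unfold Fg
  rw [sg_congr h hr (hu _ _)]
  congr 1
  · congr 1
    exact Finset.prod_congr rfl fun j _ => sg_congr h (hu _ _) (hu _ _)
  · exact Finset.prod_congr rfl fun x _ => by rw [sg_congr h (hu _ _) (hu _ _)]

/-- general independence for functions of the graph on disjoint vertex sets with a common root -/
theorem indep_gen (hIND : S_IND) (hEQ : S_EQEW) {n : ℕ} {κ : Type} [Fintype κ] [DecidableEq κ]
    (p : ℝ) (r : Fin n) (s : Bool) (V : κ → Finset (Fin n))
    (hV : ∀ x y, x ≠ y → Disjoint (V x) (V y)) (F : κ → Input n → ℝ)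
    (hF : ∀ x (Y Y' : Input n), (∀ e ∈ inside (insert r (V x)), Y e = Y' e) → F x Y = F x Y') :
    EXs p r s (fun _ Y => ∏ x, F x Y) = ∏ x, EXs p r s (fun _ Y => F x Y) := by
  have hdisj : ∀ x ∈ (Finset.univ : Finset κ), ∀ y ∈ (Finset.univ : Finset κ), x ≠ y →
      Disjoint (inside (insert r (V x))) (inside (insert r (V y))) := by
    intro x _ y _ hxy
    rw [Finset.disjoint_left]
    intro e he he'
    rw [mem_inside] at he he'
    have hd := Finset.disjoint_left.mp (hV x y hxy)
    have key : ∀ a, a ∈ insert r (V x) → a ∈ insert r (V y) → a = r := by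
      intro a ha ha'
      rcases Finset.mem_insert.mp ha with h | h
      · exact h
      · rcases Finset.mem_insert.mp ha' with h' | h'
        · exact h'
        · exact absurd h' (hd h)
    have h1 := key _ he.1 he'.1
    have h2 := key _ he.2 he'.2
    have h3 := e.2
    rw [h1, h2] at h3
    exact lt_irrefl _ h3
  have step1 : ∀ σ : Fin n → Bool,
      EQ (fun Z => ∏ x, F x (pl (Function.update σ r s) Z)) =
        ∏ x, EQ (fun Z => F x (pl (Function.update σ r s) Z)) := by
    intro σ
    rw [hEQ.1]
    rw [hIND (fun _ _ => 1 / 2) (fun _ => by norm_num) Finset.univ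
      (fun x => inside (insert r (V x))) hdisj
      (fun x Z => F x (pl (Function.update σ r s) Z)) ?_]
    · exact Finset.prod_congr rfl fun x _ => (hEQ.1 n _).symm
    · intro x _ Z Z' hZ
      refine hF x _ _ fun e he => ?_
      simp only [pl]
      rw [hZ e he]
  unfold EXs
  simp only [step1]
  unfold EV
  refine hIND (fun _ => wb p) (fun _ => by simp [wb]) Finset.univ V
    (fun x _ y _ hxy => hV x y hxy)
    (fun x σ => EQ (fun Z => F x (pl (Function.update σ r s) Z))) ?_
  intro x _ σ τ hστ
  show EQ (fun Z => F x (pl (Function.update σ r s) Z)) =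
    EQ (fun Z => F x (pl (Function.update τ r s) Z))
  congr 1
  funext Z
  refine hF x _ _ fun e he => ?_
  rw [mem_inside] at he
  have key : ∀ a, a ∈ insert r (V x) →
      Function.update σ r s a = Function.update τ r s a := by
    intro a ha
    by_cases har : a = r
    · subst har
      simp
    · rw [Function.update_of_ne har, Function.update_of_ne har]
      rcases Finset.mem_insert.mp ha with h | h
      · exact absurd h har
      · exact hστ a h
  simp only [pl]
  rw [key _ he.1, key _ he.2]

theorem p_indj (hIND : S_IND) (hEQ : S_EQEW) : S_INDJ := by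
  intro n v N p r U hU s
  refine ⟨?_, ?_⟩
  · intro Φ
    refine indep_gen hIND hEQ p r s
      (fun j => Finset.univ.image fun x : Fin 2 × Fin (v + 1) × Fin N => U j x.1 x.2.1 x.2.2)
      ?_ (fun j Y => Φ j (fun l => H r (U j l) Y)) ?_
    · intro j j' hjj
      rw [Finset.disjoint_left]
      intro a ha ha'
      simp only [Finset.mem_image, Finset.mem_univ, true_and] at ha ha'
      obtain ⟨⟨l, i, m⟩, h1⟩ := ha
      obtain ⟨⟨l', i', m'⟩, h2⟩ := ha'
      exact hjj (hU.inj j l i m j' l' i' m' (h1.trans h2.symm)).1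
    · intro j Y Y' h
      show Φ j (fun l => H r (U j l) Y) = Φ j (fun l => H r (U j l) Y')
      congr 1
      funext l
      refine H_congr h (Finset.mem_insert_self _ _) fun i m => Finset.mem_insert_of_mem ?_
      simp only [Finset.mem_image, Finset.mem_univ, true_and]
      exact ⟨(l, i, m), rfl⟩
  · intro j G
    refine indep_gen hIND hEQ p r s
      (fun l => Finset.univ.image fun x : Fin (v + 1) × Fin N => U j l x.1 x.2)
      ?_ (fun l Y => G l (H r (U j l) Y)) ?_
    · intro l l' hll
      rw [Finset.disjoint_left]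
      intro a ha ha'
      simp only [Finset.mem_image, Finset.mem_univ, true_and] at ha ha'
      obtain ⟨⟨i, m⟩, h1⟩ := ha
      obtain ⟨⟨i', m'⟩, h2⟩ := ha'
      exact hll (hU.inj j l i m j l' i' m' (h1.trans h2.symm)).2.1
    · intro l Y Y' h
      show G l (H r (U j l) Y) = G l (H r (U j l) Y')
      congr 1
      refine H_congr h (Finset.mem_insert_self _ _) fun i m => Finset.mem_insert_of_mem ?_
      simp only [Finset.mem_image, Finset.mem_univ, true_and]
      exact ⟨(i, m), rfl⟩

end Pool.Agent.W2helper59.LD
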