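import Pool.Agent.W2helper57.LD.Stm

/-!
# Project LD, piece LINK

The expectations `EP`, `EQ` of `N602` in the language of independent bits.
-/

set_option autoImplicit false

open Filter Asymptotics Pool.Agent.N602.PC Pool.Agent.W2helper57.LD

namespace Pool.Agent.W2helper59.LD

/-- the bits of a finite set -/
def bitsEquiv (n : ℕ) : Finset (Fin n) ≃ (Fin n → Bool) where
  toFun S v := decide (v ∈ S)
  invFun σ := Finset.univ.filter fun v => σ v = true
  left_inv S := by ext v; simp
  right_inv σ := by funext v; simp

theorem prod_wb {n : ℕ} (p : ℝ) (S : Finset (Fin n)) :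
    ∏ v : Fin n, wb p (decide (v ∈ S)) = p ^ S.card * (1 - p) ^ (n - S.card) := by
  have h1 : ∀ v : Fin n, wb p (decide (v ∈ S)) = if v ∈ S then p else 1 - p := by
    intro v
    by_cases hv : v ∈ S <;> simp [wb, hv]
  rw [Finset.prod_congr rfl (fun v _ => h1 v), Finset.prod_ite, Finset.prod_const,
    Finset.prod_const]
  have h2 : (Finset.univ.filter fun v => v ∈ S) = S := by ext v; simp
  have h3 : (Finset.univ.filter fun v => ¬ v ∈ S).card = n - S.card := by
    have h4 : (Finset.univ.filter fun v => ¬ v ∈ S) = Sᶜ := by ext v; simp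
    rw [h4, Finset.card_compl, Fintype.card_fin]
  rw [h2, h3]

theorem pl_bits {n : ℕ} (S : Finset (Fin n)) (Z : Input n) :
    pl (fun v => decide (v ∈ S)) Z = plant S Z := by
  funext e
  simp only [pl, plant]
  by_cases h1 : e.1.1 ∈ S <;> by_cases h2 : e.1.2 ∈ S <;> simp [h1, h2]

theorem p_link : S_LINK := by
  refine ⟨?_, ?_⟩
  · intro n k F
    unfold EP EX EV Ew
    refine Fintype.sum_equiv (bitsEquiv n) _ _ fun S => ?_
    have h1 : (Finset.univ.filter fun v => bitsEquiv n S v = true) = S := by
      ext v; simp [bitsEquiv]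
    have h2 : ∀ Z : Input n, pl (bitsEquiv n S) Z = plant S Z := fun Z => pl_bits S Z
    have h3 : ∏ v : Fin n, wb (k / n) (bitsEquiv n S v) =
        (k / n) ^ S.card * (1 - k / n) ^ (n - S.card) := prod_wb _ S
    rw [h3]
    congr 1
    congr 1
    funext Z
    rw [h2 Z]
    congr 1
    exact h1.symm
  · intro n F
    unfold EX EV Ew
    rw [Finset.sum_eq_single (fun _ => false)]
    · have h1 : ∏ v : Fin n, wb 0 ((fun _ => false : Fin n → Bool) v) = 1 := by
        simp [wb]
      rw [h1, one_mul]
      congr 1
      funext Z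
      congr 1
      funext e
      simp [pl]
    · intro σ _ hσ
      have h1 : ∃ v, σ v = true := by
        by_contra h
        push Not at h
        apply hσ
        funext v
        simpa using h v
      obtain ⟨v, hv⟩ := h1
      rw [Finset.prod_eq_zero (Finset.mem_univ v), zero_mul]
      simp [wb, hv]
    · intro h
      exact absurd (Finset.mem_univ _) h

end Pool.Agent.W2helper59.LD
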